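import Pool.Agent.W128.VA.Stm

set_option autoImplicit false

namespace Pool.Agent.W828.VA

open Finset Pool.Agent.W128.VA

lemma choose3 (x : ℤ) : 6 * Ring.choose x 3 = x * (x - 1) * (x - 2) := by
  have h := Ring.descPochhammer_eq_factorial_smul_choose x 3
  simp only [descPochhammer_succ_right, Polynomial.smeval_mul, descPochhammer_zero,
    Polynomial.smeval_sub, Polynomial.smeval_X, Polynomial.smeval_one, Polynomial.smeval_natCast] at h
  simp [Nat.factorial] at h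
  linarith

lemma bi0 (m : ℤ) : bi m 0 = 1 := by simp [bi]

lemma bi1 (m : ℤ) : bi m 1 = m := by simp [bi]

lemma bi3 (m : ℤ) : bi m 3 = (m : ℂ) * (m - 1) * (m - 2) / 6 := by
  have h := choose3 m
  have h2 : (6 : ℂ) * bi m 3 = (m : ℂ) * (m - 1) * (m - 2) := by
    unfold bi
    exact_mod_cast h
  rw [← h2]; ring

lemma bi_one (i : ℕ) (hi : 2 ≤ i) : bi 1 i = 0 := by
  unfold bi
  have h : Ring.choose (1 : ℤ) i = ((Nat.choose 1 i : ℕ) : ℤ) := by
    have := Ring.choose_natCast (R := ℤ) 1 i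
    simpa using this
  rw [h, Nat.choose_eq_zero_of_lt (by omega)]
  simp

lemma cf0 (j : ℕ) (hj : j ≠ 0) : cf 0 j = 0 := by
  unfold cf
  have h : Ring.choose (0 : ℤ) j = 0 := by
    have := Ring.choose_natCast (R := ℤ) 0 j
    rw [Nat.choose_eq_zero_of_lt (by omega)] at this
    simpa using this
  rw [h]; simp

lemma cf00 : cf 0 0 = 1 := by simp [cf]

lemma comm (F : FY) (m n : ℤ) (w : V0) : ∃ L0 : ℕ, ∀ L : ℕ, L0 ≤ L →
    ∑ j ∈ range L, bi m j • F.Y (F.Y om0 (j : ℤ) om0) (m + n - j) w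
      = F.Y om0 m (F.Y om0 n w) - F.Y om0 n (F.Y om0 m w) := by
  obtain ⟨N1, h1⟩ := F.trunc om0 om0
  obtain ⟨N2, h2⟩ := F.trunc om0 w
  refine ⟨N1.toNat + (N2 - n).toNat + (N2 - m).toNat + 1, fun L hL => ?_⟩
  have h := F.bor om0 om0 w 0 m n L (fun j hj => h1 _ (by omega)) (fun j hj => h2 _ (by omega))
    (fun j hj => h2 _ (by omega))
  simp only [zero_add, add_zero, zpow_zero, one_smul] at h
  rw [h, Finset.sum_eq_single 0]
  · rw [cf00, one_smul]
    simp
  · intro j _ hj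
    rw [cf0 j hj, zero_smul]
  · intro h0
    exact absurd (Finset.mem_range.2 (by omega)) h0

theorem main : S_OM01 → S_OM23 → S_GR → S_SMALL → S_VIR := by
  intro h01 h23 hGR hSM F m n v
  have A0 : F.Y om0 0 om0 = T0 om0 := (h01 F).1 om0
  have crit := hGR.2.2.2 (F.Y om0 1) (h01 F).2
  have A1 : F.Y om0 1 om0 = (2 : ℂ) • om0 := by
    have := (crit 2 om0).1 hSM.2.2.2.2.1
    simpa using this
  have A2 := (h23 F).1
  have A3 := (h23 F).2
  have A4 : ∀ j : ℤ, 4 ≤ j → F.Y om0 j om0 = 0 := by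
    intro j hj
    obtain ⟨L0, hL⟩ := comm F 1 j om0
    have h := hL (L0 + 2) (by omega)
    have h2 : ∑ i ∈ range (L0 + 2), bi 1 i • F.Y (F.Y om0 (i : ℤ) om0) (1 + j - i) om0
        = ∑ i ∈ range 2, bi 1 i • F.Y (F.Y om0 (i : ℤ) om0) (1 + j - i) om0 := by
      refine (Finset.sum_subset (Finset.range_subset_range.2 (by omega)) ?_).symm
      intro i _ hi
      have hi2 : 2 ≤ i := by
        have := Finset.mem_range.not.1 hi
        omega
      rw [bi_one i hi2, zero_smul]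
    rw [h2, Finset.sum_range_succ, Finset.sum_range_one, bi0, bi1] at h
    simp only [Nat.cast_zero, Nat.cast_one, sub_zero, Int.cast_one, one_smul] at h
    rw [A0, A1, F.Tder, map_smul, map_smul] at h
    have e1 : (1 : ℤ) + j - 1 = j := by ring
    rw [e1] at h
    have e2 : (((2 : ℂ) • F.Y om0) j) om0 = (2 : ℂ) • F.Y om0 j om0 := rfl
    rw [e2] at h
    have h3 : F.Y om0 1 (F.Y om0 j om0) = ((3 - j : ℤ) : ℂ) • F.Y om0 j om0 := by
      have h4 : F.Y om0 1 (F.Y om0 j om0) = (-((1 + j : ℤ) : ℂ)) • F.Y om0 j om0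
          + (2 : ℂ) • F.Y om0 j om0 + (2 : ℂ) • F.Y om0 j om0 := by
        have h5 := sub_eq_iff_eq_add.1 h.symm
        rw [h5]
        rfl
      rw [h4, ← add_smul, ← add_smul]
      congr 1
      push_cast
      ring
    have h6 := (crit (3 - j) _).2 h3
    rw [hGR.2.2.1 (3 - j) (by omega)] at h6
    exact (Submodule.mem_bot ℂ).1 h6
  obtain ⟨L0, hL⟩ := comm F (m + 1) (n + 1) v
  have h := hL (L0 + 4) (by omega)
  have h2 : ∑ i ∈ range (L0 + 4), bi (m + 1) i • F.Y (F.Y om0 (i : ℤ) om0) (m + 1 + (n + 1) - i) v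
      = ∑ i ∈ range 4, bi (m + 1) i • F.Y (F.Y om0 (i : ℤ) om0) (m + 1 + (n + 1) - i) v := by
    refine (Finset.sum_subset (Finset.range_subset_range.2 (by omega)) ?_).symm
    intro i _ hi
    have hi4 : (4 : ℤ) ≤ (i : ℤ) := by
      have : 4 ≤ i := by simpa using hi
      exact_mod_cast this
    rw [A4 _ hi4, map_zero]
    simp
  rw [← h, h2, Finset.sum_range_succ, Finset.sum_range_succ, Finset.sum_range_succ,
    Finset.sum_range_one, bi0, bi1, bi3]
  simp only [Nat.cast_zero, Nat.cast_one, Nat.cast_ofNat, sub_zero, one_smul]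
  rw [A0, A1, A2, A3, F.Tder]
  have e1 : (m + 1 + (n + 1) - 1 : ℤ) = m + n + 1 := by ring
  rw [e1]
  have e2 : (F.Y ((2 : ℂ) • om0) (m + n + 1)) v = (2 : ℂ) • F.Y om0 (m + n + 1) v := by
    rw [map_smul]; rfl
  have e3 : (F.Y ((-5 / 2 : ℂ) • vac1) (m + 1 + (n + 1) - 3)) v
      = (-5 / 2 : ℂ) • (if m + n = 0 then v else 0) := by
    rw [map_smul]
    change (-5 / 2 : ℂ) • F.Y vac1 (m + 1 + (n + 1) - 3) v = _
    rw [F.vac]
    congr 1
    by_cases hmn : m + n = 0
    · rw [if_pos hmn, if_pos (by omega)]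
    · rw [if_neg hmn, if_neg (by omega)]
  rw [e2, e3, map_zero]
  have e4 : ((0 : ℤ → Module.End ℂ V0) (m + 1 + (n + 1) - 2)) v = 0 := rfl
  rw [e4, smul_zero, add_zero]
  have e5 : ((-((m + 1 + (n + 1) : ℤ) : ℂ)) • F.Y om0 (m + n + 1)) v
      = (-((m + 1 + (n + 1) : ℤ) : ℂ)) • F.Y om0 (m + n + 1) v := rfl
  rw [e5, smul_smul, ← add_smul]
  congr 1
  · congr 1
    push_cast
    ring
  · by_cases hmn : m + n = 0
    · rw [if_pos hmn, if_pos hmn, smul_smul]
      congr 1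
      push_cast
      ring
    · rw [if_neg hmn, if_neg hmn]
      simp

end Pool.Agent.W828.VA
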